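import Pool.Agent.EDG.Stmts

set_option autoImplicit false

namespace Pool.Agent.EDG.H73

open Polynomial Finset Pool.Agent.EDG

/-- `dX` is additive. -/
theorem dX_mul' (p q : (ZMod 2)[X][X]) (hp : p ≠ 0) (hq : q ≠ 0) :
    dX (p * q) = dX p + dX q := by
  unfold dX
  rw [map_mul]
  apply natDegree_mul
  · intro h
    exact hp ((Bivariate.swap (R := ZMod 2)).injective (by rw [h, map_zero]))
  · intro h
    exact hq ((Bivariate.swap (R := ZMod 2)).injective (by rw [h, map_zero]))

/-- a root of `g` : `g` is its minimal polynomial. -/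
theorem Cyc_dvd {n : ℕ} {g : ℤ[X]} (hc : Cyc n g) {z : ℂ} (hz : aeval z g = 0) (p : ℤ[X])
    (hp : aeval z p = 0) : g ∣ p := by
  have hint : IsIntegral ℤ z := ⟨g, hc.monic, by rw [← aeval_def]; exact hz⟩
  have h1 : minpoly ℤ z ∣ g := (minpoly.isIntegrallyClosed_dvd_iff hint g).mp hz
  have h2 : minpoly ℤ z ∣ p := (minpoly.isIntegrallyClosed_dvd_iff hint p).mp hp
  have h3 : Irreducible (minpoly ℤ z) := minpoly.irreducible hint
  have h4 : Associated (minpoly ℤ z) g := h3.associated_of_dvd hc.irr h1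
  exact h4.symm.dvd.trans h2

theorem aeval_eq_zero_of_dvd' {g p : ℤ[X]} {z : ℂ} (hz : aeval z g = 0) (h : g ∣ p) :
    aeval z p = 0 := by
  obtain ⟨c, hc⟩ := h
  rw [hc, map_mul, hz, zero_mul]

theorem it_inj {n : ℕ} {g : ℤ[X]} (hc : Cyc n g) {z : ℂ} (hz : aeval z g = 0) {i j : ℕ}
    (hij : i < j) (hj : j < n) : it z (-z) i ≠ it z (-z) j := by
  intro h
  have hper : it z (-z) n = -z := by
    have := aeval_eq_zero_of_dvd' hz hc.per
    rw [map_sub, aeval_Yp, aeval_Yp, it_zero, sub_eq_zero] at this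
    exact this
  have h1 : it z (it z (-z) i) (n - i) = -z := by
    rw [← it_add, show i + (n - i) = n by omega, hper]
  have h2 : it z (it z (-z) j) (n - i) = it z (-z) (j - i) := by
    rw [← it_add, show j + (n - i) = n + (j - i) by omega, it_add, hper]
  rw [h, h2] at h1
  apply hc.ex (j - i) (by omega) (by omega)
  apply Cyc_dvd hc hz
  rw [map_sub, aeval_Yp, aeval_Yp, it_zero, h1, sub_self]

theorem roots_card {n : ℕ} {g : ℤ[X]} (hc : Cyc n g) :
    ∃ S : Finset ℂ, S.card = g.natDegree ∧ ∀ z ∈ S, aeval z g = 0 := by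
  classical
  have hirrQ : Irreducible (g.map (algebraMap ℤ ℚ)) :=
    (hc.monic.irreducible_iff_irreducible_map_fraction_map).mp hc.irr
  have hsep : (g.map (algebraMap ℤ ℚ)).Separable := hirrQ.separable
  have hsepC : ((g.map (algebraMap ℤ ℚ)).map (algebraMap ℚ ℂ)).Separable := hsep.map
  have hmm : (g.map (algebraMap ℤ ℚ)).map (algebraMap ℚ ℂ) = g.map (algebraMap ℤ ℂ) := by
    rw [Polynomial.map_map]
    rfl
  rw [hmm] at hsepC
  refine ⟨(g.map (algebraMap ℤ ℂ)).roots.toFinset, ?_, ?_⟩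
  · rw [Multiset.toFinset_card_of_nodup (nodup_roots hsepC)]
    rw [(IsAlgClosed.splits (g.map (algebraMap ℤ ℂ))).natDegree_eq_card_roots.symm]
    exact hc.monic.natDegree_map _
  · intro z hz
    rw [Multiset.mem_toFinset] at hz
    have := (mem_roots'.mp hz).2
    rw [IsRoot.def, eval_map] at this
    rw [aeval_def]
    exact this

theorem bez : BezStmt := by
  classical
  intro una mob moa rdx hba hbc min rnk syl bzm n g hc m η Θ Ψ hm hη hF hred hall hΨ hΨΘ hDΨ hn
  by_contra hno
  have hDpos := hc.natDegree_pos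
  obtain ⟨hΘdeg, hΘdX⟩ := rdx _ _ Θ hF (by omega) hm
  have hnD : n ≤ g.natDegree := (mob moa n g hc).2
  set B := Θ.comp F with hB
  have hB0 : B ≠ 0 := fun h => hno (by rw [h]; exact dvd_zero _)
  have hΘ0 : Θ ≠ 0 := fun h => hred (by rw [h, map_zero])
  have hBdeg : B.natDegree = Θ.natDegree * 2 := by
    rw [hB, natDegree_comp, F_natDegree]
  obtain ⟨A, B', c₀, hrel, hcA, hcB⟩ := UniqueFactorizationMonoid.exists_reduced_factors Θ hΘ0 B
  have hc0 : c₀ ≠ 0 := fun h => hΘ0 (by rw [← hcA, h, zero_mul])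
  have hA0 : A ≠ 0 := fun h => hΘ0 (by rw [← hcA, h, mul_zero])
  have hB'0 : B' ≠ 0 := fun h => hB0 (by rw [← hcB, h, mul_zero])
  have hΨc : ¬ Ψ ∣ c₀ := fun h => hno (by rw [← hcB]; exact h.mul_right _)
  have hΨA : Ψ ∣ A := by
    rcases hΨ.prime.dvd_or_dvd (by rw [hcA]; exact hΨΘ : Ψ ∣ c₀ * A) with h | h
    · exact absurd h hΨc
    · exact h
  have hAdeg : g.natDegree ≤ A.natDegree := hDΨ.trans (natDegree_le_of_dvd hΨA hA0)
  have hΘs : Θ.natDegree = c₀.natDegree + A.natDegree := by
    rw [← hcA, natDegree_mul hc0 hA0]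
  have hBs : B.natDegree = c₀.natDegree + B'.natDegree := by
    rw [← hcB, natDegree_mul hc0 hB'0]
  have hredc : red2 c₀ ≠ 0 ∧ red2 A ≠ 0 := by
    have h := hred
    rw [← hcA, map_mul] at h
    exact ⟨left_ne_zero_of_mul h, right_ne_zero_of_mul h⟩
  have hdXs : dX (red2 Θ) = dX (red2 c₀) + dX (red2 A) := by
    rw [← hcA, map_mul, dX_mul' _ _ hredc.1 hredc.2]
  have hVc : (Vn n g c₀).card < m := by
    by_contra hge
    push Not at hge
    have := una n g hc c₀ hredc.1 (by omega)
    omega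
  obtain ⟨S, hScard, hS⟩ := roots_card hc
  -- the indices not killed by `c₀`
  set I := range n \ Vn n g c₀ with hI
  have hIcard : n - m + 1 ≤ I.card := by
    have h1 : (range n).card - (Vn n g c₀).card ≤ I.card := le_card_sdiff _ _
    rw [card_range] at h1
    omega
  obtain ⟨I', hI'sub, hI'card⟩ := exists_subset_card_eq hIcard
  have hI'n : ∀ i ∈ I', i < n ∧ ¬ g ∣ ev (X : ℤ[X]) (Yp i) c₀ := by
    intro i hi
    have h1 := hI'sub hi
    rw [hI, mem_sdiff, mem_range, mem_Vn] at h1
    exact ⟨h1.1, fun h => h1.2 ⟨h1.1, h⟩⟩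
  have hbz := bzm hba hbc min rnk syl (2 * g.natDegree) m η (n - m + 1) Θ B c₀ A B' S
    (fun z => I'.image fun i => it z (-z) i) hm hη hF ⟨_, hF.comp_F⟩ (by omega) hcA.symm hcB.symm
    hc0 hA0 hB'0 hrel (by omega) (by
      intro z hz
      have hzg := hS z hz
      refine ⟨?_, ?_⟩
      · rw [← hI'card]
        apply card_image_of_injOn
        intro i hi j hj hij
        have hi1 := (hI'n i hi).1
        have hj1 := (hI'n j hj).1
        by_contra hne
        rcases Nat.lt_or_gt_of_ne hne with h | h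
        · exact it_inj hc hzg h hj1 hij
        · exact it_inj hc hzg h hi1 hij.symm
      · intro y hy
        obtain ⟨i, hi, rfl⟩ := mem_image.mp hy
        have hne : ev z (it z (-z) i) c₀ ≠ 0 := by
          intro h0
          apply (hI'n i hi).2
          apply Cyc_dvd hc hzg
          rw [aeval_ev, aeval_Yp]
          exact h0
        have h1 : ev z (it z (-z) i) Θ = 0 := by
          have := aeval_eq_zero_of_dvd' hzg (hall i)
          rw [aeval_ev, aeval_Yp] at this
          exact this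
        have h2 : ev z (it z (-z) i) B = 0 := by
          have := aeval_eq_zero_of_dvd' hzg (hall (i + 1))
          rw [← ev_comp_F_Yp, aeval_ev, aeval_Yp] at this
          exact this
        rw [← hcA, map_mul] at h1
        rw [← hcB, map_mul] at h2
        exact ⟨(mul_eq_zero.mp h1).resolve_left hne, (mul_eq_zero.mp h2).resolve_left hne⟩)
  rw [hScard] at hbz
  have hr : A.natDegree + B'.natDegree ≤ 6 * g.natDegree := by omega
  have h3 : g.natDegree * (n - m + 1) ≤ g.natDegree * (6 * (m + η - 1)) := by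
    calc g.natDegree * (n - m + 1) ≤ (A.natDegree + B'.natDegree) * (m + η - 1) := hbz
      _ ≤ (6 * g.natDegree) * (m + η - 1) := Nat.mul_le_mul_right _ hr
      _ = g.natDegree * (6 * (m + η - 1)) := by ring
  have h4 := Nat.le_of_mul_le_mul_left h3 hDpos
  omega

end Pool.Agent.EDG.H73
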