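import Pool.Agent.EDG.Stmts

set_option autoImplicit false

namespace Pool.Agent.EDG.H73

open Polynomial Finset Pool.Agent.EDG

theorem det_dvd_of_rows {r : ℕ} (B : Matrix (Fin r) (Fin r) ℂ[X]) (d : Fin r → ℂ[X])
    (h : ∀ i j, d i ∣ B i j) : ∏ i, d i ∣ B.det := by
  rw [Matrix.det_apply]
  apply Finset.dvd_sum
  intro σ _
  rw [Units.smul_def, zsmul_eq_mul]
  apply Dvd.dvd.mul_left
  rw [← Equiv.prod_comp σ d]
  exact Finset.prod_dvd_prod_of_dvd _ _ (fun i _ => h (σ i) i)

theorem card_isRight {α β γ : Type} [Fintype α] [Fintype γ] (e : α ≃ β ⊕ γ) :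
    (univ.filter fun i : α => (e i).isRight).card = Fintype.card γ := by
  rw [← Finset.card_univ (α := γ)]
  have h : (univ.filter fun i : α => (e i).isRight)
      = (univ : Finset γ).map (Function.Embedding.inr.trans e.symm.toEmbedding) := by
    ext i
    rw [mem_filter, mem_map]
    constructor
    · rintro ⟨_, hi⟩
      obtain ⟨k, hk⟩ := Sum.isRight_iff.mp hi
      refine ⟨k, mem_univ _, ?_⟩
      show e.symm (Sum.inr k) = i
      rw [← hk, Equiv.symm_apply_apply]
    · rintro ⟨k, _, hk⟩
      refine ⟨mem_univ _, ?_⟩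
      have hk' : e.symm (Sum.inr k) = i := hk
      rw [← hk', Equiv.apply_symm_apply]
      rfl
  rw [h, card_map]

theorem det_dvd {r q : ℕ} (A : Matrix (Fin r) (Fin r) ℂ[X]) (z : ℂ)
    (h : (A.map (evalRingHom z)).rank + q ≤ r) : (X - C z) ^ q ∣ A.det := by
  classical
  obtain ⟨V, U, e, hV, hU, hVU⟩ := Matrix.exists_rank_normal_form (A.map (evalRingHom z))
  have hVd : IsUnit V.det := (Matrix.isUnit_iff_isUnit_det _).1 hV
  have hUd : IsUnit U.det := (Matrix.isUnit_iff_isUnit_det _).1 hU
  set V' : Matrix (Fin r) (Fin r) ℂ[X] := V.map C with hV'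
  set U' : Matrix (Fin r) (Fin r) ℂ[X] := U.map C with hU'
  set B := V' * A * U' with hB
  have hVdet : V'.det = C V.det := by
    rw [hV']
    exact (RingHom.map_det (C : ℂ →+* ℂ[X]) V).symm
  have hUdet : U'.det = C U.det := by
    rw [hU']
    exact (RingHom.map_det (C : ℂ →+* ℂ[X]) U).symm
  have hBev : B.map (evalRingHom z) = V * A.map (evalRingHom z) * U := by
    rw [hB, Matrix.map_mul, Matrix.map_mul]
    have h1 : V'.map (evalRingHom z) = V := by
      ext i j; simp [hV', Matrix.map_apply]
    have h2 : U'.map (evalRingHom z) = U := by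
      ext i j; simp [hU', Matrix.map_apply]
    rw [h1, h2]
  have hrow : ∀ i j, (if (e i).isRight then (X - C z : ℂ[X]) else 1) ∣ B i j := by
    intro i j
    by_cases hi : (e i).isRight
    · rw [if_pos hi, dvd_iff_isRoot, IsRoot.def]
      have h3 : eval z (B i j) = (B.map (evalRingHom z)) i j := by
        simp [Matrix.map_apply]
      rw [h3, hBev, hVU, Matrix.submatrix_apply]
      obtain ⟨k, hk⟩ := Sum.isRight_iff.mp hi
      rw [hk]
      rcases e j with a | a
      · rw [Matrix.fromBlocks_apply₂₁]; rfl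
      · rw [Matrix.fromBlocks_apply₂₂]; rfl
    · rw [if_neg hi]; exact one_dvd _
  have hdvd := det_dvd_of_rows B _ hrow
  have hcount : q ≤ (univ.filter fun i : Fin r => (e i).isRight).card := by
    have h4 := card_isRight e
    have h5 := h4.trans (Fintype.card_fin _)
    have h6 : Fintype.card (Fin r) = r := Fintype.card_fin r
    omega
  have hpow : (X - C z : ℂ[X]) ^ q ∣ B.det := by
    refine dvd_trans ?_ hdvd
    rw [prod_ite, prod_const, prod_const_one, mul_one]
    exact pow_dvd_pow _ hcount
  rw [hB, Matrix.det_mul, Matrix.det_mul, hVdet, hUdet] at hpow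
  have hu1 : IsUnit (C V.det : ℂ[X]) := hVd.map C
  have hu2 : IsUnit (C U.det : ℂ[X]) := hUd.map C
  rw [hu2.dvd_mul_right, hu1.dvd_mul_left] at hpow
  exact hpow

theorem exists_minor {N r : ℕ} (M : Matrix (Fin N) (Fin r) ℤ[X])
    (h : ∀ v : Fin r → ℤ[X], M.mulVec v = 0 → v = 0) :
    ∃ f : Fin r → Fin N, (M.submatrix f id).det ≠ 0 := by
  classical
  set K := FractionRing ℤ[X] with hK
  set MK : Matrix (Fin N) (Fin r) K := M.map (algebraMap ℤ[X] K) with hMK
  have hcol : LinearIndependent K MK.transpose.row := by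
    rw [← LinearIndependent.iff_fractionRing (R := ℤ[X]) (K := K)]
    rw [Fintype.linearIndependent_iff]
    intro v hv
    have : M.mulVec v = 0 := by
      ext1 i
      apply IsFractionRing.injective ℤ[X] K
      have h1 := congrFun hv i
      simp only [Finset.sum_apply, Pi.smul_apply, Matrix.row, Matrix.transpose_apply,
        Pi.zero_apply] at h1
      rw [Matrix.mulVec, dotProduct, map_sum, Pi.zero_apply, map_zero, ← h1]
      apply sum_congr rfl
      intro j _
      rw [map_mul, Algebra.smul_def, mul_comm]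
      rfl
    intro i
    exact congrFun (h v this) i
  have hrank : MK.rank = r := by
    have := hcol.rank_matrix
    rw [Matrix.rank_transpose, Fintype.card_fin] at this
    exact this
  rw [Matrix.rank_eq_finrank_span_row] at hrank
  obtain ⟨b, hb1, hb2, hb3⟩ := exists_linearIndependent K (Set.range MK.row)
  have hbfin : b.Finite := (Set.finite_range _).subset hb1
  have : Fintype b := hbfin.fintype
  have hcard : Fintype.card b = r := by
    have := finrank_span_eq_card hb3
    rw [Subtype.range_coe, hb2, hrank] at this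
    exact this.symm
  set eb : Fin r ≃ b := (Fintype.equivFinOfCardEq hcard).symm
  have hch : ∀ i : Fin r, ∃ k : Fin N, MK.row k = (eb i : Fin r → K) := fun i => hb1 (eb i).2
  choose f hf using hch
  refine ⟨f, ?_⟩
  intro hdet
  have hli : LinearIndependent K (MK.submatrix f id).row := by
    have h5 : (MK.submatrix f id).row = (fun x : b => (x : Fin r → K)) ∘ eb := by
      ext i j
      have := congrFun (hf i) j
      exact this
    rw [h5]
    exact hb3.comp _ eb.injective
  have h6 := (Matrix.linearIndependent_rows_iff_isUnit.mp hli)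
  have h7 : IsUnit (MK.submatrix f id).det := (Matrix.isUnit_iff_isUnit_det _).1 h6
  have h8 : (MK.submatrix f id).det = algebraMap ℤ[X] K (M.submatrix f id).det := by
    rw [RingHom.map_det]
    rfl
  rw [h8, hdet, map_zero] at h7
  exact not_isUnit_zero h7

theorem natDegree_det_le {r w : ℕ} (A : Matrix (Fin r) (Fin r) ℤ[X])
    (h : ∀ i j, (A i j).natDegree ≤ w) : A.det.natDegree ≤ r * w := by
  rw [Matrix.det_apply]
  apply natDegree_sum_le_of_forall_le
  intro σ _
  refine (natDegree_smul_le _ _).trans ?_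
  refine (natDegree_prod_le _ _).trans ?_
  calc ∑ i, (A (σ i) i).natDegree ≤ ∑ _i : Fin r, w := Finset.sum_le_sum (fun i _ => h _ _)
    _ = r * w := by simp

theorem min : MinStmt := by
  intro N r w q M S hdeg hinj hS
  obtain ⟨f, hf⟩ := exists_minor M hinj
  set A := M.submatrix f id with hA
  set Δ : ℂ[X] := A.det.map (Int.castRingHom ℂ) with hΔ
  have hinjc : Function.Injective (Int.castRingHom ℂ) := Int.cast_injective
  have hΔ0 : Δ ≠ 0 := by
    rw [hΔ]
    intro h0
    exact hf ((Polynomial.map_eq_zero_iff hinjc).mp h0)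
  have hΔd : Δ.natDegree ≤ r * w := by
    rw [hΔ, natDegree_map_eq_of_injective hinjc]
    exact natDegree_det_le A fun i j => hdeg _ _
  have hdiv : ∀ z ∈ S, (X - C z : ℂ[X]) ^ q ∣ Δ := by
    intro z hz
    have h1 : Δ = (A.map (mapRingHom (Int.castRingHom ℂ))).det := by
      have := RingHom.map_det (mapRingHom (Int.castRingHom ℂ)) A
      rw [hΔ]
      exact this
    rw [h1]
    apply det_dvd
    refine le_trans ?_ (hS z hz)
    have h2 : (A.map (mapRingHom (Int.castRingHom ℂ))).map (evalRingHom z)
        = (M.map (aeval z : ℤ[X] → ℂ)).submatrix f id := by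
      ext i j
      simp only [Matrix.map_apply, Matrix.submatrix_apply, hA, coe_mapRingHom, coe_evalRingHom,
        id_eq]
      rw [eval_map, aeval_def]
      rfl
    rw [h2]
    have := Matrix.rank_submatrix_le (M.map (aeval z : ℤ[X] → ℂ)) f id
    omega
  have hprod : ∏ z ∈ S, (X - C z : ℂ[X]) ^ q ∣ Δ := by
    apply Finset.prod_dvd_of_coprime
    · intro z _ z' _ hzz
      apply IsCoprime.pow
      exact pairwise_coprime_X_sub_C (fun _ _ h => h) hzz
    · exact hdiv
  have h3 := natDegree_le_of_dvd hprod hΔ0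
  have h4 : (∏ z ∈ S, (X - C z : ℂ[X]) ^ q).natDegree = S.card * q := by
    rw [natDegree_prod _ _ (fun z _ => pow_ne_zero _ (X_sub_C_ne_zero z))]
    simp [natDegree_pow]
  omega

end Pool.Agent.EDG.H73
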