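import Pool.Agent.EDG.Stmts

set_option autoImplicit false

namespace Pool.Agent.EDG.H73

open Polynomial Finset Pool.Agent.EDG

/-- `dX` is additive. -/
theorem dX_mul (p q : (ZMod 2)[X][X]) (hp : p ≠ 0) (hq : q ≠ 0) : dX (p * q) = dX p + dX q := by
  unfold dX
  rw [map_mul]
  apply natDegree_mul
  · intro h
    exact hp ((Bivariate.swap (R := ZMod 2)).injective (by rw [h, map_zero]))
  · intro h
    exact hq ((Bivariate.swap (R := ZMod 2)).injective (by rw [h, map_zero]))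

theorem red2_mul_ne {a b : ℤ[X][X]} (h : red2 (a * b) ≠ 0) : red2 a ≠ 0 ∧ red2 b ≠ 0 := by
  rw [map_mul] at h
  exact ⟨left_ne_zero_of_mul h, right_ne_zero_of_mul h⟩

theorem Vn_mul {n : ℕ} {g : ℤ[X]} (hc : Cyc n g) (a b : ℤ[X][X]) :
    Vn n g (a * b) = Vn n g a ∪ Vn n g b := by
  ext i
  rw [mem_union, mem_Vn, mem_Vn, mem_Vn, map_mul]
  constructor
  · rintro ⟨h1, h2⟩
    rcases hc.prime.dvd_or_dvd h2 with h | h
    · exact Or.inl ⟨h1, h⟩
    · exact Or.inr ⟨h1, h⟩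
  · rintro (⟨h1, h2⟩ | ⟨h1, h2⟩)
    · exact ⟨h1, h2.mul_right _⟩
    · exact ⟨h1, h2.mul_left _⟩

theorem Vn_mul_card {n : ℕ} {g : ℤ[X]} (hc : Cyc n g) (a b : ℤ[X][X]) :
    (Vn n g (a * b)).card ≤ (Vn n g a).card + (Vn n g b).card := by
  rw [Vn_mul hc]; exact card_union_le _ _

theorem Vn_unit {n : ℕ} {g : ℤ[X]} (hc : Cyc n g) {a : ℤ[X][X]} (ha : IsUnit a) :
    (Vn n g a).card = 0 := by
  rw [card_eq_zero]
  apply eq_empty_of_forall_notMem
  intro i hi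
  rw [mem_Vn] at hi
  exact hc.irr.not_isUnit (isUnit_of_dvd_unit hi.2 (ha.map _))

/-- if all irreducible factors have few zeros, then the product too. -/
theorem few {n : ℕ} {g : ℤ[X]} (hc : Cyc n g) (a : ℤ[X][X]) :
    red2 a ≠ 0 → (∀ p : ℤ[X][X], Irreducible p → p ∣ a → (Vn n g p).card ≤ dX (red2 p)) →
    (Vn n g a).card ≤ dX (red2 a) := by
  induction a using UniqueFactorizationMonoid.induction_on_prime with
  | h₁ => intro h; exact absurd (map_zero _) h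
  | h₂ a ha => intro _ _; rw [Vn_unit hc ha]; exact Nat.zero_le _
  | h₃ a p ha hp ih =>
    intro h1 h2
    obtain ⟨h3, h4⟩ := red2_mul_ne h1
    have h5 := ih h4 fun p' hp' hd => h2 p' hp' (hd.mul_left _)
    have h6 := h2 p hp.irreducible (dvd_mul_right _ _)
    have h7 := Vn_mul_card hc p a
    rw [map_mul, dX_mul _ _ h3 h4]
    omega

theorem uni : UniStmt := by
  intro una n g hc m Θ hdeg hred hdX hmn hall
  have hcard : (Vn n g Θ).card = n := by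
    have : Vn n g Θ = range n := by
      ext i
      rw [mem_Vn, mem_range]
      exact ⟨fun h => h.1, fun h => ⟨h, hall i⟩⟩
    rw [this, card_range]
  have hΘ : Θ ≠ 0 := fun h => hred (by rw [h, map_zero])
  -- a big factor
  have hex : ∃ Ψ : ℤ[X][X], Irreducible Ψ ∧ Ψ ∣ Θ ∧ dX (red2 Ψ) < (Vn n g Ψ).card := by
    by_contra hno
    push Not at hno
    have := few hc Θ hred fun p hp hd => hno p hp hd
    omega
  obtain ⟨Ψ, hirr, ⟨Θ', hΘ'⟩, hbig⟩ := hex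
  have hred' := hred
  rw [hΘ'] at hred'
  obtain ⟨hrΨ, hrΘ'⟩ := red2_mul_ne hred'
  have hΨ0 : Ψ ≠ 0 := hirr.ne_zero
  have hΘ'0 : Θ' ≠ 0 := fun h => hrΘ' (by rw [h, map_zero])
  have hD : g.natDegree ≤ Ψ.natDegree := una n g hc Ψ hrΨ hbig
  have hdm : Θ.natDegree = Ψ.natDegree + Θ'.natDegree := by
    rw [hΘ', natDegree_mul hΨ0 hΘ'0]
  have hsm : Θ'.natDegree < g.natDegree := by omega
  have hdXm : dX (red2 Θ) = dX (red2 Ψ) + dX (red2 Θ') := by
    rw [hΘ', map_mul, dX_mul _ _ hrΨ hrΘ']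
  have hfew' : (Vn n g Θ').card ≤ dX (red2 Θ') := by
    by_contra hno
    push Not at hno
    have := una n g hc Θ' hrΘ' hno
    omega
  have hun := Vn_mul_card hc Ψ Θ'
  rw [← hΘ', hcard] at hun
  refine ⟨Ψ, hirr, ⟨Θ', hΘ'⟩, hD, by omega, ?_⟩
  intro ψ hψ hψd hψc
  obtain ⟨c, hcc⟩ := hψd
  have hred'' := hred
  rw [hcc] at hred''
  obtain ⟨hrψ, hrc⟩ := red2_mul_ne hred''
  have hdXψ : dX (red2 Θ) = dX (red2 ψ) + dX (red2 c) := by
    rw [hcc, map_mul, dX_mul _ _ hrψ hrc]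
  have hDψ : g.natDegree ≤ ψ.natDegree := una n g hc ψ hrψ (by omega)
  have hpr : Prime ψ := hψ.prime
  rcases hpr.dvd_or_dvd (⟨c, by rw [← hΘ', hcc]⟩ : ψ ∣ Ψ * Θ') with h | h
  · exact (hψ.associated_of_dvd hirr h)
  · exact absurd (natDegree_le_of_dvd h hΘ'0) (by omega)

end Pool.Agent.EDG.H73
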